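import Pool.Agent.N85.KG.Stm
import Pool.Agent.N85.AW.Rel
import Pool.Agent.Y914.NV.Irr

/-!
# Project KG, COVB: covering blocks and irreducible representations
-/

set_option autoImplicit false
set_option linter.unusedSectionVars false

open scoped BigOperators

noncomputable section

namespace Pool.Agent.N85.KG.Covb

open Pool.Agent.Y63.NV Pool.Agent.Y914.NV Pool.Agent.N85.WM Pool.Agent.N85.AW
open Pool.Agent.N85.AW.Rel Representation
open scoped MonoidAlgebra

/-! ### Elements of the group algebra and functions -/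

section elem

variable {F : Type} [Field F] {G : Type} [Group G]

/-- the element of the group algebra with the coefficients `z` -/
def el [Finite G] (z : G → F) : F[G] := MonoidAlgebra.ofCoeff (Finsupp.equivFunOnFinite.symm z)

lemma coeff_el [Finite G] (z : G → F) (g : G) : (el z).coeff g = z g := rfl

lemma ext_coeff {x y : F[G]} (h : ∀ g, x.coeff g = y.coeff g) : x = y :=
  MonoidAlgebra.coeff_injective (Finsupp.ext h)

lemma act_coeff [Fintype G] {V : Type} [AddCommGroup V] [Module F V] (ρ : Representation F G V)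
    (x : F[G]) (v : V) : ρ.asAlgebraHom x v = ∑ g, x.coeff g • ρ g v := by
  classical
  induction x using MonoidAlgebra.induction_linear with
  | zero => simp
  | add x y hx hy =>
    rw [map_add, LinearMap.add_apply, hx, hy, ← Finset.sum_add_distrib]
    exact Finset.sum_congr rfl fun g _ => by
      rw [MonoidAlgebra.coeff_add, Finsupp.add_apply, add_smul]
  | single h a =>
    rw [asAlgebraHom_single, LinearMap.smul_apply, Finset.sum_eq_single h]
    · rw [MonoidAlgebra.coeff_single, Finsupp.single_eq_same]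
    · intro g _ hg
      rw [MonoidAlgebra.coeff_single, Finsupp.single_eq_of_ne hg, zero_smul]
    · intro hh
      exact absurd (Finset.mem_univ h) hh

lemma coeff_conv [Finite G] (x y : F[G]) :
    (fun g => (x * y).coeff g) = conv (fun g => x.coeff g) (fun g => y.coeff g) := by
  classical
  have := Fintype.ofFinite G
  funext g
  rw [conv, finsum_eq_sum_of_fintype, MonoidAlgebra.coeff_mul_apply_left, Finsupp.sum_fintype]
  intro i
  rw [zero_mul]

/-- class functions are central -/
lemma central_of_class {x : F[G]} (hx : IsClassFun fun g => x.coeff g) (y : F[G]) :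
    x * y = y * x := by
  induction y using MonoidAlgebra.induction_linear with
  | zero => rw [mul_zero, zero_mul]
  | add y z hy hz => rw [mul_add, add_mul, hy, hz]
  | single h a =>
    refine ext_coeff fun g => ?_
    rw [MonoidAlgebra.coeff_mul_single_apply, MonoidAlgebra.coeff_single_mul_apply, mul_comm]
    have h1 : x.coeff (h * (h⁻¹ * g) * h⁻¹) = x.coeff (h⁻¹ * g) := hx h (h⁻¹ * g)
    rw [mul_inv_cancel_left] at h1
    rw [h1]

lemma class_of_central {x : F[G]} (hx : ∀ y : F[G], x * y = y * x) :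
    IsClassFun fun g => x.coeff g := by
  intro h g
  have h1 := congrArg (fun y : F[G] => y.coeff (h * g)) (hx (MonoidAlgebra.single h 1))
  beta_reduce at h1
  rw [MonoidAlgebra.coeff_mul_single_apply, MonoidAlgebra.coeff_single_mul_apply, mul_one, one_mul,
    inv_mul_cancel_left] at h1
  exact h1

lemma zero_class : IsClassFun (0 : G → F) := fun _ _ => rfl

/-- the homomorphism from the centre of the group algebra given by a block -/
def hom [Finite G] {B : (G → F) → F} (hB : IsBlock B) : Subring.center F[G] →+* F where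
  toFun x := B fun g => (x : F[G]).coeff g
  map_one' := by
    classical
    rw [← hB.one]
    congr 1
  map_mul' x y := by
    have hx : IsClassFun fun g => (x : F[G]).coeff g :=
      class_of_central fun z => (Subring.mem_center_iff.1 x.2 z).symm
    have hy : IsClassFun fun g => (y : F[G]).coeff g :=
      class_of_central fun z => (Subring.mem_center_iff.1 y.2 z).symm
    rw [← hB.mul _ _ hx hy, ← coeff_conv]
    rfl
  map_zero' := by
    have h1 := hB.add 0 0 zero_class zero_class
    rw [add_zero, left_eq_add] at h1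
    exact h1
  map_add' x y := by
    have hx : IsClassFun fun g => (x : F[G]).coeff g :=
      class_of_central fun z => (Subring.mem_center_iff.1 x.2 z).symm
    have hy : IsClassFun fun g => (y : F[G]).coeff g :=
      class_of_central fun z => (Subring.mem_center_iff.1 y.2 z).symm
    rw [← hB.add _ _ hx hy]
    rfl

lemma hom_apply [Finite G] {B : (G → F) → F} (hB : IsBlock B) (x : Subring.center F[G]) :
    hom hB x = B fun g => (x : F[G]).coeff g := rfl

end elem

/-! ### Irreducible quotients and submodules -/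

section quot

variable {F : Type} [Field F] {G : Type} [Group G] {V : Type} [AddCommGroup V] [Module F V]
  [FiniteDimensional F V]

/-- a proper invariant subspace is contained in one with irreducible quotient -/
lemma exists_quot {ρ : Representation F G V} {U₀ : Submodule F V} (h0 : Inv ρ U₀) (h1 : U₀ ≠ ⊤) :
    ∃ U : Submodule F V, U₀ ≤ U ∧ Inv ρ U ∧ U ≠ ⊤ ∧ ∃ σ : Representation F G (V ⧸ U),
      σ.IsIrreducible ∧ ∀ g v, σ g (U.mkQ v) = U.mkQ (ρ g v) := by
  obtain ⟨U, ⟨hU0, hU1, hU2⟩, hU3⟩ := set_has_maximal_iff_noetherian.mpr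
    (inferInstance : IsNoetherian F V) {U | U₀ ≤ U ∧ Inv ρ U ∧ U ≠ ⊤} ⟨U₀, le_rfl, h0, h1⟩
  obtain ⟨σ, hσ⟩ : ∃ σ : Representation F G (V ⧸ U), ∀ x v, σ x (U.mkQ v) = U.mkQ (ρ x v) := by
    refine ⟨ρ.quotient U fun g v hv => hU1 g v hv, fun x v => rfl⟩
  refine ⟨U, hU0, hU1, hU2, σ, ?_, hσ⟩
  rw [irr_iff]
  refine ⟨Submodule.Quotient.nontrivial_iff.2 hU2, fun Q hQ => ?_⟩
  by_cases h1 : Q.comap U.mkQ = ⊤
  · right
    rw [eq_top_iff]
    intro w _
    obtain ⟨v, rfl⟩ := U.mkQ_surjective w
    have : v ∈ Q.comap U.mkQ := by rw [h1]; trivial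
    exact this
  · left
    have h2 : Inv ρ (Q.comap U.mkQ) := by
      intro g v hv
      rw [Submodule.mem_comap] at hv ⊢
      rw [← hσ]
      exact hQ g _ hv
    have h4 : U ≤ Q.comap U.mkQ := by
      intro v hv
      rw [Submodule.mem_comap]
      have : U.mkQ v = 0 := (Submodule.Quotient.mk_eq_zero U).2 hv
      rw [this]
      exact Q.zero_mem
    have h3 := hU3 _ ⟨hU0.trans h4, h2, h1⟩
    have h5 : U = Q.comap U.mkQ := by
      by_contra hne
      exact h3 (lt_of_le_of_ne h4 hne)
    rw [eq_bot_iff]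
    intro w hw
    obtain ⟨v, rfl⟩ := U.mkQ_surjective w
    have : v ∈ Q.comap U.mkQ := hw
    rw [← h5] at this
    rw [Submodule.mem_bot]
    exact (Submodule.Quotient.mk_eq_zero U).2 this

/-- a nonzero invariant subspace contains an irreducible one -/
lemma exists_sub {R : Representation F G V} {C : Submodule F V} (hCinv : Inv R C) (hC0 : C ≠ ⊥) :
    ∃ U : Submodule F V, U ≠ ⊥ ∧ U ≤ C ∧ ∃ ρ : Representation F G U,
      ρ.IsIrreducible ∧ ∀ g u, (ρ g u : V) = R g u := by
  obtain ⟨U, ⟨hU1, hU2, hU3⟩, hU4⟩ := WellFounded.has_min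
    (wellFounded_lt (α := Submodule F V)) {U | Inv R U ∧ U ≠ ⊥ ∧ U ≤ C} ⟨C, hCinv, hC0, le_rfl⟩
  obtain ⟨ρ, hρ⟩ : ∃ ρ : Representation F G U, ∀ g u, (ρ g u : V) = R g u := by
    refine ⟨R.subrepresentation U fun g v hv => hU1 g v hv, fun g u => rfl⟩
  refine ⟨U, hU2, hU3, ρ, ?_, hρ⟩
  rw [irr_iff]
  refine ⟨(Submodule.nontrivial_iff_ne_bot).2 hU2, fun Q hQ => ?_⟩
  by_cases h1 : Q = ⊥
  · exact Or.inl h1
  · right
    have h2 : Inv R (Q.map U.subtype) := by
      rintro g _ ⟨u, hu, rfl⟩
      exact ⟨ρ g u, hQ g u hu, hρ g u⟩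
    have h3 : Q.map U.subtype ≠ ⊥ := by
      intro h
      apply h1
      rw [eq_bot_iff]
      intro u hu
      have h7 : (u : V) ∈ Q.map U.subtype := ⟨u, hu, rfl⟩
      rw [h, Submodule.mem_bot] at h7
      rw [Submodule.mem_bot]
      exact Subtype.ext h7
    have h4 : Q.map U.subtype ≤ U := Submodule.map_subtype_le U Q
    have h5 : Q.map U.subtype = U := by
      by_contra hne
      exact hU4 _ ⟨h2, h3, h4.trans hU3⟩ (lt_of_le_of_ne h4 hne)
    rw [eq_top_iff]
    intro u _
    have h6 : (u : V) ∈ Q.map U.subtype := by rw [h5]; exact u.2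
    obtain ⟨u', hu', he⟩ := h6
    have : u' = u := Subtype.ext he
    rwa [this] at hu'

lemma act_mkQ {ρ : Representation F G V} {U : Submodule F V} {σ : Representation F G (V ⧸ U)}
    (hσ : ∀ g v, σ g (U.mkQ v) = U.mkQ (ρ g v)) (x : F[G]) (v : V) :
    σ.asAlgebraHom x (U.mkQ v) = U.mkQ (ρ.asAlgebraHom x v) :=
  (inter_alg (ρ := ρ) (σ := σ) U.mkQ (fun g v => (hσ g v).symm) x v).symm

end quot

/-! ### Elements which act as zero on the irreducible representations -/

section nil

variable {F : Type} [Field F] {G : Type} [Group G]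

/-- `x` acts as zero on all irreducible representations -/
def KA (x : F[G]) : Prop := ∀ (V : Type) [AddCommGroup V] [Module F V] [FiniteDimensional F V]
  (ρ : Representation F G V), ρ.IsIrreducible → ρ.asAlgebraHom x = 0

lemma nil_act {x : F[G]} (hx : KA x) (n : ℕ) : ∀ (V : Type) [AddCommGroup V] [Module F V]
    [FiniteDimensional F V] (ρ : Representation F G V), Module.finrank F V ≤ n →
    ∀ v : V, ρ.asAlgebraHom (x ^ n) v = 0 := by
  induction n with
  | zero =>
    intro V _ _ _ ρ hn v
    have h1 : Subsingleton V := Module.finrank_zero_iff.1 (Nat.le_zero.1 hn)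
    exact Subsingleton.elim _ _
  | succ n ih =>
    intro V _ _ _ ρ hn v
    by_cases hV : Subsingleton V
    · exact Subsingleton.elim _ _
    · rw [not_subsingleton_iff_nontrivial] at hV
      obtain ⟨U, -, hU1, hU2, σ, hσ, hσρ⟩ := exists_quot (ρ := ρ) (U₀ := ⊥) (by
        intro g v hv
        rw [Submodule.mem_bot] at hv ⊢
        rw [hv, map_zero]) bot_ne_top
      have h1 : ρ.asAlgebraHom x v ∈ U := by
        have h2 := act_mkQ hσρ x v
        rw [hx _ σ hσ, LinearMap.zero_apply] at h2
        exact (Submodule.Quotient.mk_eq_zero U).1 h2.symm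
      obtain ⟨τ, hτ⟩ : ∃ τ : Representation F G U, ∀ g u, (τ g u : V) = ρ g u :=
        ⟨ρ.subrepresentation U fun g v hv => hU1 g v hv, fun g u => rfl⟩
      have h3 := ih U τ (by
        have := Submodule.finrank_lt hU2
        omega) ⟨_, h1⟩
      have h4 := inter_alg (ρ := τ) (σ := ρ) U.subtype (fun g u => hτ g u) (x ^ n) ⟨_, h1⟩
      rw [h3, map_zero] at h4
      rw [pow_succ, map_mul]
      exact h4.symm

/-- the regular representation -/
def Lreg (F G : Type) [Field F] [Group G] : Representation F G F[G] where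
  toFun g := LinearMap.mulLeft F (MonoidAlgebra.single g (1 : F))
  map_one' := by
    refine LinearMap.ext fun x => ?_
    rw [LinearMap.mulLeft_apply, ← MonoidAlgebra.one_def, one_mul]
    rfl
  map_mul' g h := by
    refine LinearMap.ext fun x => ?_
    rw [Module.End.mul_apply, LinearMap.mulLeft_apply, LinearMap.mulLeft_apply,
      LinearMap.mulLeft_apply, ← mul_assoc, MonoidAlgebra.single_mul_single, one_mul]

lemma Lreg_apply (g : G) (y : F[G]) : Lreg F G g y = MonoidAlgebra.single g (1 : F) * y := rfl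

lemma Lreg_act (x y : F[G]) : (Lreg F G).asAlgebraHom x y = x * y := by
  induction x using MonoidAlgebra.induction_linear with
  | zero => rw [map_zero, LinearMap.zero_apply, zero_mul]
  | add x z hx hz => rw [map_add, LinearMap.add_apply, hx, hz, add_mul]
  | single g a =>
    rw [asAlgebraHom_single, LinearMap.smul_apply, Lreg_apply, ← smul_mul_assoc,
      MonoidAlgebra.smul_single, smul_eq_mul, mul_one]

instance [Finite G] : FiniteDimensional F F[G] :=
  Module.Finite.equiv (MonoidAlgebra.coeffLinearEquiv (S := F) (M := G) F).symm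

lemma nil_of_KA [Finite G] {x : F[G]} (hx : KA x) : ∃ n, x ^ n = 0 := by
  refine ⟨Module.finrank F F[G], ?_⟩
  have h1 := nil_act hx _ F[G] (Lreg F G) le_rfl 1
  rwa [Lreg_act, mul_one] at h1

end nil

/-! ### Blocks -/

section blk

variable {F : Type} [Field F] {G : Type} [Group G]

/-- the representation belongs to the block -/
def Mem (B : (G → F) → F) {V : Type} [AddCommGroup V] [Module F V] (ρ : Representation F G V) :
    Prop := ∀ f : G → F, IsClassFun f → Acts f (B f) ρ.character

variable [IsAlgClosed F] [Finite G] {V : Type} [AddCommGroup V] [Module F V]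
  [FiniteDimensional F V]

lemma scal {B : (G → F) → F} {ρ : Representation F G V} (hρ : ρ.IsIrreducible) (hB : Mem B ρ)
    {x : F[G]} (hx : ∀ y, x * y = y * x) (v : V) :
    ρ.asAlgebraHom x v = B (fun g => x.coeff g) • v := by
  have := Fintype.ofFinite G
  have hc := class_of_central hx
  obtain ⟨c₀, hc₀⟩ := Pool.Agent.N85.AW.Rel.schur hρ (z := fun g => x.coeff g)
    (fun g y => hc g y)
  have h1 := (acts_iff hρ hc₀ _).1 (hB _ hc)
  rw [h1, act_coeff, ← hc₀]

lemma exists_blk {ρ : Representation F G V} (hρ : ρ.IsIrreducible) :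
    ∃ β : (G → F) → F, IsBlock β ∧ Mem β ρ := by
  have h1 : IsIrrTrace ρ.character :=
    ⟨V, inferInstance, inferInstance, inferInstance, ρ, hρ, rfl⟩
  exact ⟨blkOf ⟨ρ.character, h1⟩, blkOf_block _, fun f hf x => blkOf_spec ⟨ρ.character, h1⟩ hf x⟩

lemma block_idem {B : (G → F) → F} (hB : IsBlock B) :
    ∃ e : Subring.center F[G], hom hB e = 1 ∧ e * e = e ∧ ∀ (V : Type) [AddCommGroup V]
      [Module F V] [FiniteDimensional F V] (ρ : Representation F G V), ρ.IsIrreducible →
      (Mem B ρ → ρ.asAlgebraHom (e : F[G]) = 1) ∧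
      (¬ Mem B ρ → ρ.asAlgebraHom (e : F[G]) = 0) := by
  obtain ⟨e₀, he, he1, he2⟩ := exists_idem hB
  have hcen : ∀ y, el e₀ * y = y * el e₀ := central_of_class (x := el e₀) he.cl
  obtain ⟨a, ha⟩ : ∃ a : Subring.center F[G], (a : F[G]) = el e₀ :=
    ⟨⟨el e₀, Subring.mem_center_iff.2 fun y => (hcen y).symm⟩, rfl⟩
  have key : ∀ (V : Type) [AddCommGroup V] [Module F V] [FiniteDimensional F V]
      (ρ : Representation F G V), ρ.IsIrreducible →
      (Mem B ρ → ρ.asAlgebraHom (a : F[G]) = 1) ∧
      (¬ Mem B ρ → ρ.asAlgebraHom (a : F[G]) = 0) := by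
    intro V _ _ _ ρ hρ
    constructor
    · intro hm
      ext v
      rw [ha, scal hρ hm hcen v]
      show B e₀ • v = v
      rw [he1, one_smul]
    · intro hm
      obtain ⟨β, hβ, hβρ⟩ := exists_blk hρ
      ext v
      rw [ha, scal hρ hβρ hcen v]
      show β e₀ • v = 0
      rcases he.val β hβ with h | h
      · rw [h, zero_smul]
      · exfalso
        apply hm
        intro f hf
        rw [he2 β hβ h f hf]
        exact hβρ f hf
  have hKA : KA ((a : F[G]) * (1 - (a : F[G]))) := by
    intro V _ _ _ ρ hρ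
    by_cases hm : Mem B ρ
    · rw [map_mul, map_sub, (key V ρ hρ).1 hm, map_one, sub_self, mul_zero]
    · rw [map_mul, (key V ρ hρ).2 hm, zero_mul]
  obtain ⟨n, hn⟩ := nil_of_KA hKA
  have hz : (a * (1 - a)) ^ (n + 1) = 0 := by
    apply Subtype.ext
    show ((a : F[G]) * (1 - (a : F[G]))) ^ (n + 1) = 0
    rw [pow_succ, hn, zero_mul]
  have hcop : IsCoprime (a ^ (n + 1)) ((1 - a) ^ (n + 1)) :=
    IsCoprime.pow ⟨1, 1, by ring⟩
  obtain ⟨u, v, huv⟩ := hcop
  have ha1 : hom hB a = 1 := by
    rw [hom_apply, ha]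
    exact he1
  refine ⟨u * a ^ (n + 1), ?_, ?_, ?_⟩
  · have h1 := congrArg (hom hB) huv
    rw [map_add, map_mul, map_mul _ v, map_pow, map_pow, map_sub, map_one, ha1, sub_self,
      zero_pow (Nat.succ_ne_zero n), mul_zero, add_zero] at h1
    rw [map_mul, map_pow, ha1, h1]
  · have h1 : (1 : Subring.center F[G]) - u * a ^ (n + 1) = v * (1 - a) ^ (n + 1) := by
      rw [sub_eq_iff_eq_add']
      exact huv.symm
    have h2 : u * a ^ (n + 1) * (1 - u * a ^ (n + 1)) = 0 := by
      rw [h1]
      calc u * a ^ (n + 1) * (v * (1 - a) ^ (n + 1)) = u * v * (a * (1 - a)) ^ (n + 1) := by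
            rw [mul_pow]
            ring
        _ = 0 := by rw [hz, mul_zero]
    rw [mul_sub, mul_one, sub_eq_zero] at h2
    exact h2.symm
  · intro V _ _ _ ρ hρ
    constructor
    · intro hm
      have h1 := congrArg (fun z : Subring.center F[G] => ρ.asAlgebraHom (z : F[G])) huv
      have h2 : ((u * a ^ (n + 1) + v * (1 - a) ^ (n + 1) : Subring.center F[G]) : F[G]) =
          ((u * a ^ (n + 1) : Subring.center F[G]) : F[G]) +
            (v : F[G]) * (1 - (a : F[G])) ^ (n + 1) := rfl
      beta_reduce at h1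
      rw [h2, map_add, map_mul _ (v : F[G]), map_pow, map_sub, (key V ρ hρ).1 hm] at h1
      rw [map_one, sub_self, zero_pow (Nat.succ_ne_zero n), mul_zero, add_zero] at h1
      rw [h1]
      exact map_one _
    · intro hm
      show ρ.asAlgebraHom ((u : F[G]) * (a : F[G]) ^ (n + 1)) = 0
      rw [map_mul, map_pow, (key V ρ hρ).2 hm, zero_pow (Nat.succ_ne_zero n), mul_zero]

end blk

/-! ### Restriction and conjugation -/

section res

variable {F : Type} [Field F] {J : Type} [Group J] (X : Subgroup J)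

/-- the inclusion of group algebras -/
def inc : F[X] →ₐ[F] F[J] := MonoidAlgebra.mapDomainAlgHom F F X.subtype

lemma inc_single (x : X) (a : F) :
    inc X (MonoidAlgebra.single x a) = MonoidAlgebra.single (x : J) a :=
  MonoidAlgebra.mapDomain_single

/-- the restriction of coefficients -/
def res : F[J] →ₗ[F] F[X] where
  toFun y := MonoidAlgebra.comapDomain X.subtype X.subtype_injective y
  map_add' y z := MonoidAlgebra.comapDomain_add _ _ y z
  map_smul' a y := by
    refine ext_coeff fun g => ?_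
    simp

lemma res_coeff (y : F[J]) (x : X) : (res X y).coeff x = y.coeff x := rfl

lemma res_inc_mul (s : F[X]) (y : F[J]) : res X (inc X s * y) = s * res X y := by
  induction s using MonoidAlgebra.induction_linear with
  | zero => rw [map_zero, zero_mul, zero_mul, map_zero]
  | add s t hs ht => rw [map_add, add_mul, add_mul, map_add, hs, ht]
  | single x a =>
    refine ext_coeff fun g => ?_
    rw [inc_single, res_coeff, MonoidAlgebra.coeff_single_mul_apply,
      MonoidAlgebra.coeff_single_mul_apply, res_coeff]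
    rfl

lemma res_mul_inc (y : F[J]) (s : F[X]) : res X (y * inc X s) = res X y * s := by
  induction s using MonoidAlgebra.induction_linear with
  | zero => rw [map_zero, mul_zero, mul_zero, map_zero]
  | add s t hs ht => rw [map_add, mul_add, mul_add, map_add, hs, ht]
  | single x a =>
    refine ext_coeff fun g => ?_
    rw [inc_single, res_coeff, MonoidAlgebra.coeff_mul_single_apply,
      MonoidAlgebra.coeff_mul_single_apply, res_coeff]
    rfl

lemma res_one : res X (1 : F[J]) = 1 := by
  rw [MonoidAlgebra.one_def, MonoidAlgebra.one_def]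
  exact MonoidAlgebra.comapDomain_single_map (X.subtype) X.subtype_injective 1 1

lemma res_inc (s : F[X]) : res X (inc X s) = s := by
  have h := res_inc_mul X s 1
  rwa [mul_one, res_one, mul_one] at h

lemma inc_coeff (s : F[X]) (x : X) : (inc X s).coeff x = s.coeff x := by
  rw [← res_coeff, res_inc]

lemma inc_coeff_out (s : F[X]) {g : J} (hg : g ∉ X) : (inc X s).coeff g = 0 := by
  induction s using MonoidAlgebra.induction_linear with
  | zero => rw [map_zero]; rfl
  | add s t hs ht => rw [map_add, MonoidAlgebra.coeff_add, Finsupp.add_apply, hs, ht, add_zero]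
  | single x a =>
    rw [inc_single, MonoidAlgebra.coeff_single, Finsupp.single_eq_of_ne]
    rintro rfl
    exact hg x.2

variable [hXn : X.Normal]

/-- conjugation -/
def cj (g : J) : F[X] ≃ₐ[F] F[X] := MonoidAlgebra.domCongr F F (MulAut.conjNormal g)

lemma cj_coeff (g : J) (s : F[X]) (x : X) :
    (cj X g s).coeff x = s.coeff ((MulAut.conjNormal g : MulAut X).symm x) :=
  MonoidAlgebra.coeff_domCongr _ _ _

lemma cj_single (g : J) (x : X) (a : F) :
    cj X g (MonoidAlgebra.single x a) = MonoidAlgebra.single (MulAut.conjNormal g x) a := by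
  exact MonoidAlgebra.domCongr_single _ _ _

lemma cj_mul (g h : J) (s : F[X]) : cj X (g * h) s = cj X g (cj X h s) := by
  induction s using MonoidAlgebra.induction_linear with
  | zero => simp
  | add s t hs ht => rw [map_add, map_add, map_add, hs, ht]
  | single x a => rw [cj_single, cj_single, cj_single, map_mul, MulAut.mul_apply]

lemma cj_one (s : F[X]) : cj X (1 : J) s = s := by
  induction s using MonoidAlgebra.induction_linear with
  | zero => simp
  | add s t hs ht => rw [map_add, hs, ht]
  | single x a => rw [cj_single, map_one, MulAut.one_apply]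

lemma inc_cj (g : J) (s : F[X]) : inc X (cj X g s) =
    MonoidAlgebra.single g 1 * inc X s * MonoidAlgebra.single g⁻¹ 1 := by
  induction s using MonoidAlgebra.induction_linear with
  | zero => simp
  | add s t hs ht => rw [map_add, map_add, map_add, hs, ht, mul_add, add_mul]
  | single x a =>
    rw [cj_single, inc_single, inc_single, MonoidAlgebra.single_mul_single,
      MonoidAlgebra.single_mul_single, MulAut.conjNormal_apply, one_mul, mul_one]

lemma res_cj (g : J) (y : F[J]) :
    res X (MonoidAlgebra.single g 1 * y * MonoidAlgebra.single g⁻¹ 1) = cj X g (res X y) := by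
  refine ext_coeff fun x => ?_
  rw [res_coeff, MonoidAlgebra.coeff_mul_single_apply, MonoidAlgebra.coeff_single_mul_apply,
    cj_coeff, res_coeff, one_mul, mul_one, inv_inv]
  congr 1
  have h := MulAut.conjNormal_symm_apply g x
  rw [h, mul_assoc]

variable {X}
variable {W : Type} [AddCommGroup W] [Module F W]

/-- the conjugate representation -/
def tw (g : J) (σ : Representation F X W) : Representation F X W :=
  σ.comp (MulAut.conjNormal g : X ≃* X).toMonoidHom

lemma tw_apply (g : J) (σ : Representation F X W) (x : X) :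
    tw g σ x = σ (MulAut.conjNormal g x) := rfl

lemma tw_act (g : J) (σ : Representation F X W) (s : F[X]) :
    (tw g σ).asAlgebraHom s = σ.asAlgebraHom (cj X g s) := by
  induction s using MonoidAlgebra.induction_linear with
  | zero => simp
  | add s t hs ht => rw [map_add, map_add, map_add, hs, ht]
  | single x a => rw [cj_single, asAlgebraHom_single, asAlgebraHom_single, tw_apply]

lemma tw_irr (g : J) {σ : Representation F X W} (hσ : σ.IsIrreducible) :
    (tw g σ).IsIrreducible := by
  rw [irr_iff] at hσ ⊢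
  refine ⟨hσ.1, fun U hU => hσ.2 U ?_⟩
  intro x v hv
  have h1 := hU ((MulAut.conjNormal g : MulAut X).symm x) v hv
  rw [tw_apply] at h1
  have h2 : MulAut.conjNormal g ((MulAut.conjNormal g : MulAut X).symm x) = x :=
    MulEquiv.apply_symm_apply _ _
  rwa [h2] at h1

variable {V : Type} [AddCommGroup V] [Module F V]

lemma tw_inter {ρ : Representation F J V} {σ : Representation F X W} {π : V →ₗ[F] W}
    (hπ : ∀ (x : X) (v : V), π (ρ x v) = σ x (π v)) (g : J) (x : X) (v : V) :
    π (ρ g (ρ x v)) = tw g σ x (π (ρ g v)) := by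
  rw [tw_apply, ← hπ, MulAut.conjNormal_apply]
  congr 1
  rw [← Module.End.mul_apply, ← Module.End.mul_apply, ← map_mul, ← map_mul, inv_mul_cancel_right]

lemma tw_ne {ρ : Representation F J V} {π : V →ₗ[F] W} (hπ : π ≠ 0) (g : J) : π ∘ₗ ρ g ≠ 0 := by
  intro h
  apply hπ
  ext v
  have h1 := LinearMap.congr_fun h (ρ g⁻¹ v)
  rw [LinearMap.comp_apply, ← Module.End.mul_apply, ← map_mul, mul_inv_cancel, map_one] at h1
  exact h1

lemma rs_inc (ρ : Representation F J V) (s : F[X]) :
    (rs X ρ).asAlgebraHom s = ρ.asAlgebraHom (inc X s) := by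
  induction s using MonoidAlgebra.induction_linear with
  | zero => simp
  | add s t hs ht => rw [map_add, map_add, map_add, hs, ht]
  | single x a => rw [inc_single, asAlgebraHom_single, asAlgebraHom_single, rs_apply]

end res

/-! ### The second part -/

section cz

variable {F : Type} [Field F] {J : Type} [Group J] (X : Subgroup J) [hXn : X.Normal]

/-- conjugation on the centre -/
def cz (g : J) : Subring.center F[X] →+* Subring.center F[X] :=
  ((cj (F := F) X g : F[X] →+* F[X]).comp (Subring.center F[X]).subtype).codRestrict _ (by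
    intro z
    rw [Subring.mem_center_iff]
    intro y
    obtain ⟨y', rfl⟩ := (cj (F := F) X g).surjective y
    have h1 := Subring.mem_center_iff.1 z.2 y'
    show cj X g y' * cj X g (z : F[X]) = cj X g (z : F[X]) * cj X g y'
    rw [← map_mul, h1, map_mul])

lemma cz_coe (g : J) (z : Subring.center F[X]) :
    ((cz X g z : Subring.center F[X]) : F[X]) = cj X g (z : F[X]) := rfl

variable {X}

lemma inz_of_inv {s : F[X]} (hs : ∀ g, cj X g s = s) : InZ X fun g => (inc X s).coeff g where
  conj g x := by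
    have h1 := inc_cj X g s
    rw [hs g] at h1
    rw [h1, MonoidAlgebra.coeff_mul_single_apply, MonoidAlgebra.coeff_single_mul_apply, one_mul,
      mul_one, inv_inv, ← h1]
    congr 1
    group
  supp x hx := inc_coeff_out X s hx

end cz

section main

variable {F : Type} [Field F] [IsAlgClosed F] {J : Type} [Group J] [Finite J] {X : Subgroup J}
  [hXn : X.Normal]

lemma quot_rs {V : Type} [AddCommGroup V] [Module F V] [FiniteDimensional F V]
    {ρ : Representation F J V} (hρ : ρ.IsIrreducible) : ∃ (W : Type) (_ : AddCommGroup W)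
      (_ : Module F W) (_ : FiniteDimensional F W) (σ : Representation F X W) (π : V →ₗ[F] W),
      σ.IsIrreducible ∧ π ≠ 0 ∧ ∀ (x : X) (v : V), π (ρ x v) = σ x (π v) := by
  have hn := ((irr_iff ρ).1 hρ).1
  obtain ⟨U, -, hU1, hU2, σ, hσ, hσρ⟩ := exists_quot (ρ := rs X ρ) (U₀ := ⊥) (by
    intro g v hv
    rw [Submodule.mem_bot] at hv ⊢
    rw [hv, map_zero]) bot_ne_top
  refine ⟨V ⧸ U, inferInstance, inferInstance, inferInstance, σ, U.mkQ, hσ, ?_,
    fun x v => (hσρ x v).symm⟩
  intro h0
  apply hU2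
  rw [eq_top_iff]
  intro v _
  have : U.mkQ v = 0 := LinearMap.congr_fun h0 v
  exact (Submodule.Quotient.mk_eq_zero U).1 this

lemma part2' {B : (J → F) → F} {b : (X → F) → F} (hb : IsBlock b)
    (hcov : ∀ z : J → F, InZ X z → B z = b (fun x : X => z x))
    {V : Type} [AddCommGroup V] [Module F V] [FiniteDimensional F V] {ρ : Representation F J V}
    (hρ : ρ.IsIrreducible) (hm : Mem B ρ) :
    ∃ θ : X → F, IsIrrTrace θ ∧ (∀ f : X → F, IsClassFun f → Acts f (b f) θ) ∧
      Pool.Agent.N85.AW.Rel X ρ.character θ := by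
  classical
  by_contra hcon
  obtain ⟨W, i1, i2, i3, σ, π, hσ, hπ0, hπ⟩ := quot_rs (X := X) hρ
  have hnot : ∀ g, ¬ Mem b (tw g σ) := by
    intro g hm'
    exact hcon ⟨(tw g σ).character, ⟨W, i1, i2, i3, tw g σ, tw_irr g hσ, rfl⟩, hm',
      ⟨V, inferInstance, inferInstance, inferInstance, ρ, W, i1, i2, i3, tw g σ, hρ, tw_irr g hσ,
        rfl, rfl, π ∘ₗ ρ g, tw_ne hπ0 g, fun x v => tw_inter hπ g x v⟩⟩
  obtain ⟨e, he1, he2, he3⟩ := block_idem hb
  have hk : ∀ g, σ.asAlgebraHom (cj X g (e : F[X])) = 0 := by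
    intro g
    rw [← tw_act]
    exact (he3 _ (tw g σ) (tw_irr g hσ)).2 (hnot g)
  have := Fintype.ofFinite J
  obtain ⟨v, hv⟩ : ∃ v : Subring.center F[X], v = ∏ g : J, (1 - cz X g e) := ⟨_, rfl⟩
  have hv1 : σ.asAlgebraHom (v : F[X]) = 1 := by
    have h1 : ∀ s : Finset J,
        σ.asAlgebraHom ((∏ g ∈ s, (1 - cz X g e) : Subring.center F[X]) : F[X]) = 1 := by
      intro s
      induction s using Finset.induction_on with
      | empty =>
        rw [Finset.prod_empty]
        exact map_one _
      | insert g s hg ih =>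
        rw [Finset.prod_insert hg]
        have h2 : (((1 - cz X g e) * ∏ g ∈ s, (1 - cz X g e) : Subring.center F[X]) : F[X]) =
            (1 - cj X g (e : F[X])) *
              ((∏ g ∈ s, (1 - cz X g e) : Subring.center F[X]) : F[X]) := rfl
        rw [h2, map_mul, ih, map_sub, hk, map_one, sub_zero, mul_one]
    rw [hv]
    exact h1 _
  have hv2 : hom hb v = 0 := by
    rw [hv, map_prod]
    refine Finset.prod_eq_zero (Finset.mem_univ 1) ?_
    have h1 : cz X (1 : J) e = e := Subtype.ext (by rw [cz_coe, cj_one])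
    rw [map_sub, map_one, h1, he1, sub_self]
  have hv3 : ∀ g, cj X g (v : F[X]) = v := by
    intro g
    rw [← cz_coe]
    congr 1
    rw [hv, map_prod, ← Equiv.prod_comp (Equiv.mulLeft g) fun h => 1 - cz X h e]
    refine Finset.prod_congr rfl fun h _ => ?_
    rw [map_sub, map_one]
    congr 1
    refine Subtype.ext ?_
    rw [cz_coe, cz_coe, cz_coe, Equiv.coe_mulLeft, cj_mul]
  have hz := inz_of_inv hv3
  have hB0 : B (fun g => (inc X (v : F[X])).coeff g) = 0 := by
    rw [hcov _ hz, ← hv2, hom_apply]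
    congr 1
    funext x
    exact inc_coeff X _ x
  have hcen : ∀ y, inc X (v : F[X]) * y = y * inc X (v : F[X]) := central_of_class hz.conj
  apply hπ0
  ext w
  have h1 := scal hρ hm hcen w
  rw [hB0, zero_smul, ← rs_inc] at h1
  have h2 := inter_alg (ρ := rs X ρ) (σ := σ) π (fun x v => hπ x v) (v : F[X]) w
  rw [h1, hv1, map_zero] at h2
  exact h2.symm

/-- `σ` lies under a representation in `B` -/
def Und (B : (J → F) → F) {W : Type} [AddCommGroup W] [Module F W] (σ : Representation F X W) :
    Prop := ∃ φ : J → F, IsIrrTrace φ ∧ (∀ f : J → F, IsClassFun f → Acts f (B f) φ) ∧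
      Pool.Agent.N85.AW.Rel X φ σ.character

/-- the properties of the idempotent of the block -/
structure BI (B : (J → F) → F) (e : F[J]) : Prop where
  cen : ∀ y, e * y = y * e
  idem : e * e = e
  one : ∀ (V : Type) [AddCommGroup V] [Module F V] [FiniteDimensional F V]
    (ρ : Representation F J V), ρ.IsIrreducible → Mem B ρ → ρ.asAlgebraHom e = 1
  zero : ∀ (V : Type) [AddCommGroup V] [Module F V] [FiniteDimensional F V]
    (ρ : Representation F J V), ρ.IsIrreducible → ¬ Mem B ρ → ρ.asAlgebraHom e = 0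

variable {B : (J → F) → F} {e : F[J]} {W : Type} [AddCommGroup W] [Module F W]
  [FiniteDimensional F W] {σ : Representation F X W}

lemma lemA (he : BI B e) (hσ : σ.IsIrreducible) (hno : ¬ Und B σ) (j : J) :
    σ.asAlgebraHom (res X (e * MonoidAlgebra.single j 1)) = 0 := by
  classical
  have hn := ((irr_iff σ).1 hσ).1
  obtain ⟨R, hR⟩ : ∃ R : Representation F J (J → W), ∀ g f h, R g f h = f (h * g) := by
    refine ⟨{ toFun := fun g => LinearMap.pi fun h => LinearMap.proj (h * g)
              map_one' := ?_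
              map_mul' := ?_ }, fun g f h => rfl⟩
    · ext f h
      simp
    · intro a b
      ext f h
      simp [mul_assoc]
  have := Fintype.ofFinite J
  have := Fintype.ofFinite X
  obtain ⟨C, hC⟩ : ∃ C : Submodule F (J → W), ∀ f, f ∈ C ↔ ∀ (x : X) (g : J),
      f (x * g) = σ x (f g) := by
    refine ⟨{ carrier := {f | ∀ (x : X) (g : J), f (x * g) = σ x (f g)}
              add_mem' := ?_
              zero_mem' := ?_
              smul_mem' := ?_ }, fun f => Iff.rfl⟩
    · intro f f' hf hf' x g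
      rw [Pi.add_apply, Pi.add_apply, hf, hf', map_add]
    · intro x g
      simp
    · intro a f hf x g
      rw [Pi.smul_apply, Pi.smul_apply, hf, map_smul]
  have hCinv : Inv R C := by
    intro g f hf
    rw [hC] at hf ⊢
    intro x h
    rw [hR, hR, mul_assoc, hf]
  have hCalg : ∀ f ∈ C, R.asAlgebraHom e f ∈ C := by
    intro f hf
    rw [act_coeff]
    exact Submodule.sum_mem _ fun g _ => Submodule.smul_mem _ _ (hCinv g f hf)
  obtain ⟨D, hD⟩ : ∃ D : Submodule F (J → W), ∀ f, f ∈ D ↔ f ∈ C ∧ R.asAlgebraHom e f = f := by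
    refine ⟨C ⊓ LinearMap.ker (R.asAlgebraHom e - 1), fun f => ?_⟩
    rw [Submodule.mem_inf, LinearMap.mem_ker, LinearMap.sub_apply, Module.End.one_apply,
      sub_eq_zero]
  have hDinv : Inv R D := by
    intro g f hf
    rw [hD] at hf ⊢
    refine ⟨hCinv g f hf.1, ?_⟩
    rw [← asAlgebraHom_single_one, ← Module.End.mul_apply, ← map_mul, he.cen, map_mul,
      Module.End.mul_apply, hf.2]
  have hD0 : D = ⊥ := by
    by_contra hne
    obtain ⟨U, hU0, hUD, ρ, hρ, hρR⟩ := exists_sub hDinv hne
    apply hno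
    have hmem : Mem B ρ := by
      by_contra hm
      have h1 := he.zero U ρ hρ hm
      apply hU0
      rw [eq_bot_iff]
      intro f hf
      have h2 := inter_alg (ρ := ρ) (σ := R) U.subtype (fun g u => hρR g u) e ⟨f, hf⟩
      rw [h1, LinearMap.zero_apply, map_zero, Submodule.subtype_apply, ((hD f).1 (hUD hf)).2] at h2
      rw [Submodule.mem_bot]
      exact h2.symm
    refine ⟨ρ.character, ⟨U, inferInstance, inferInstance, inferInstance, ρ, hρ, rfl⟩, hmem,
      U, inferInstance, inferInstance, inferInstance, ρ, W, inferInstance, inferInstance,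
      inferInstance, σ, hρ, hσ, rfl, rfl, (LinearMap.proj (1 : J)) ∘ₗ U.subtype, ?_, ?_⟩
    · intro h0
      apply hU0
      rw [eq_bot_iff]
      intro f hf
      rw [Submodule.mem_bot]
      funext h
      have h1 := LinearMap.congr_fun h0 (ρ h ⟨f, hf⟩)
      rw [LinearMap.comp_apply, LinearMap.proj_apply, Submodule.subtype_apply, hρR, hR,
        one_mul] at h1
      exact h1
    · intro x u
      rw [LinearMap.comp_apply, LinearMap.proj_apply, Submodule.subtype_apply, hρR, hR, one_mul,
        LinearMap.comp_apply, LinearMap.proj_apply, Submodule.subtype_apply]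
      have h1 := (hC _).1 ((hD _).1 (hUD u.2)).1 x 1
      rw [mul_one] at h1
      exact h1
  have hkill : ∀ f ∈ C, R.asAlgebraHom e f = 0 := by
    intro f hf
    have h1 : R.asAlgebraHom e f ∈ D := by
      rw [hD]
      refine ⟨hCalg f hf, ?_⟩
      rw [← Module.End.mul_apply, ← map_mul, he.idem]
    rw [hD0, Submodule.mem_bot] at h1
    exact h1
  ext w
  obtain ⟨f, hf⟩ : ∃ f : J → W, ∀ h, f h = if hj : h * j ∈ X then σ ⟨h * j, hj⟩ w else 0 :=
    ⟨_, fun _ => rfl⟩
  have hfC : f ∈ C := by
    rw [hC]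
    intro x g
    rw [hf, hf]
    by_cases hg : g * j ∈ X
    · have h1 : (x : J) * g * j ∈ X := by
        rw [mul_assoc]
        exact X.mul_mem x.2 hg
      rw [dif_pos hg, dif_pos h1]
      have h2 : (⟨(x : J) * g * j, h1⟩ : X) = x * ⟨g * j, hg⟩ := Subtype.ext (mul_assoc _ _ _)
      rw [h2, map_mul]
      rfl
    · rw [dif_neg hg, dif_neg, map_zero]
      intro h
      rw [mul_assoc] at h
      exact hg ((X.mul_mem_cancel_left x.2).1 h)
  have h1 := congrFun (hkill f hfC) 1
  rw [act_coeff, Finset.sum_apply, Pi.zero_apply] at h1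
  rw [act_coeff, LinearMap.zero_apply]
  refine Eq.trans ?_ h1
  have h3 : ∀ g : J, (e.coeff g • R g f) 1 = if hj : g * j ∈ X then e.coeff g • σ ⟨g * j, hj⟩ w
      else 0 := by
    intro g
    rw [Pi.smul_apply, hR, one_mul, hf]
    split_ifs
    · rfl
    · rw [smul_zero]
  rw [Finset.sum_congr rfl fun g _ => h3 g]
  rw [← Equiv.sum_comp (Equiv.mulRight j⁻¹) (fun g : J => if hj : g * j ∈ X then
    e.coeff g • σ ⟨g * j, hj⟩ w else 0)]
  symm
  rw [← Finset.sum_subset (Finset.subset_univ (Finset.univ.filter (· ∈ X)))]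
  · rw [Finset.sum_subtype (p := (· ∈ X)) _ (by simp)]
    refine Finset.sum_congr rfl fun x _ => ?_
    rw [Equiv.coe_mulRight, res_coeff, MonoidAlgebra.coeff_mul_single_apply, mul_one]
    have h4 : (x : J) * j⁻¹ * j = x := inv_mul_cancel_right _ _
    rw [dif_pos (by rw [h4]; exact x.2)]
    congr 3
    exact Subtype.ext h4
  · intro g _ hg
    have hg' : g ∉ X := by simpa using hg
    rw [Equiv.coe_mulRight, dif_neg]
    rwa [inv_mul_cancel_right]

lemma sum_coset [Fintype J] [Fintype X] [Fintype (J ⧸ X)] {M : Type} [AddCommMonoid M]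
    (f : J → M) : ∑ g : J, f g = ∑ q : J ⧸ X, ∑ x : X, f (x * q.out) := by
  rw [← Fintype.sum_prod_type']
  symm
  have hmk : ∀ (x : X) (q : J ⧸ X), (QuotientGroup.mk ((x : J) * q.out) : J ⧸ X) = q := by
    intro x q
    conv_rhs => rw [← QuotientGroup.out_eq' q]
    rw [eq_comm, QuotientGroup.eq]
    rw [← mul_assoc]
    have h1 := hXn.conj_mem x x.2 (q.out)⁻¹
    rwa [inv_inv] at h1
  refine Fintype.sum_bijective (fun p : (J ⧸ X) × X => (p.2 : J) * p.1.out) ⟨?_, ?_⟩ _ _
    fun _ => rfl
  · rintro ⟨q, x⟩ ⟨q', x'⟩ h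
    beta_reduce at h
    have h1 : q = q' := by rw [← hmk x q, ← hmk x' q']; exact congrArg _ h
    subst h1
    have h2 : x = x' := Subtype.ext (mul_right_cancel h)
    rw [h2]
  · intro g
    obtain ⟨x, hx⟩ := out_factor (X := X) g
    exact ⟨(QuotientGroup.mk g, x), hx.symm⟩

lemma lemB (he : BI B e) (hσ : σ.IsIrreducible)
    (hk : ∀ y, σ.asAlgebraHom (res X (e * y)) = 0) : ¬ Und B σ := by
  classical
  rintro ⟨φ, -, hφ, V, i1, i2, i3, ρ, W', j1, j2, j3, σ', hρ, hσ', rfl, hch, π, hπ0, hπ⟩
  have hk' : ∀ y, σ'.asAlgebraHom (res X (e * y)) = 0 := fun y =>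
    kill_all hσ' ⟨W, inferInstance, inferInstance, inferInstance, σ, hσ, hch.symm, hk y⟩
  have := Fintype.ofFinite J
  have := Fintype.ofFinite X
  have := Fintype.ofFinite (J ⧸ X)
  apply hπ0
  ext v
  have h1 : π v = π (ρ.asAlgebraHom e v) := by rw [he.one V ρ hρ hφ, Module.End.one_apply]
  rw [h1, act_coeff, map_sum, sum_coset (X := X), LinearMap.zero_apply]
  refine Finset.sum_eq_zero fun q _ => ?_
  have h2 := LinearMap.congr_fun (hk' (MonoidAlgebra.single (q.out)⁻¹ 1)) (π (ρ q.out v))
  rw [LinearMap.zero_apply, act_coeff] at h2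
  rw [← h2]
  refine Finset.sum_congr rfl fun x _ => ?_
  have h5 : ρ (x * q.out) v = ρ x (ρ q.out v) := by
    rw [map_mul]
    rfl
  rw [res_coeff, MonoidAlgebra.coeff_mul_single_apply, inv_inv, mul_one, map_smul, ← hπ, h5]

lemma lemC (he : BI B e) (hσ : σ.IsIrreducible)
    (hI : ∀ s, e * inc X s = 0 → σ.asAlgebraHom s = 0) : Und B σ := by
  classical
  by_contra hno
  obtain ⟨a, ha1, ha2⟩ := manyK σ hσ ((irr F X).1.toFinset.erase σ.character) (by
    intro ψ hψ
    rw [Finset.mem_erase, Set.Finite.mem_toFinset] at hψ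
    exact ⟨hψ.2, hψ.1⟩)
  have hKA : KA (e * inc X a) := by
    intro V _ _ _ ρ hρ
    by_cases hm : Mem B ρ
    · have h0 : ρ.asAlgebraHom (inc X a) = 0 := by
        obtain ⟨W₀, i1, i2, i3, σ₀, π, hσ₀, hπ0, hπ⟩ := quot_rs (X := X) hρ
        ext v
        rw [LinearMap.zero_apply]
        refine ker_core hρ hπ0 fun g => ?_
        have h1 := inter_alg (ρ := rs X ρ) (σ := tw g σ₀) (π ∘ₗ ρ g)
          (fun x v => tw_inter hπ g x v) a v
        rw [rs_inc] at h1
        have h2 : (tw g σ₀).asAlgebraHom a = 0 := by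
          refine kill_all (tw_irr g hσ₀) (ha2 _ ?_)
          rw [Finset.mem_erase, Set.Finite.mem_toFinset]
          refine ⟨fun hch => hno ?_, ⟨W₀, i1, i2, i3, tw g σ₀, tw_irr g hσ₀, rfl⟩⟩
          exact ⟨ρ.character, ⟨V, inferInstance, inferInstance, inferInstance, ρ, hρ, rfl⟩, hm,
            V, inferInstance, inferInstance, inferInstance, ρ, W₀, i1, i2, i3, tw g σ₀, hρ,
            tw_irr g hσ₀, rfl, hch.symm, π ∘ₗ ρ g, tw_ne hπ0 g, fun x v => tw_inter hπ g x v⟩
        rw [h2, LinearMap.zero_apply] at h1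
        exact h1
      rw [map_mul, h0, mul_zero]
    · rw [map_mul, he.zero V ρ hρ hm, zero_mul]
  obtain ⟨m, hm⟩ := nil_of_KA hKA
  have h1 : e * inc X (a ^ (m + 1)) = 0 := by
    have h2 : (e * inc X a) ^ (m + 1) = e * inc X (a ^ (m + 1)) := by
      have hc : Commute e (inc X a) := he.cen _
      rw [hc.mul_pow, IsIdempotentElem.pow_succ_eq m he.idem, map_pow]
    rw [← h2, pow_succ, hm, zero_mul]
  have h2 := hI _ h1
  rw [map_pow, ha1, one_pow] at h2
  have hn := ((irr_iff σ).1 hσ).1
  obtain ⟨w, hw⟩ := exists_ne (0 : W)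
  exact hw (LinearMap.congr_fun h2 w)

lemma decomp (he : BI B e) : ∃ s : F[X], e * inc X s = 0 ∧ ∃ y : F[J], s + res X (e * y) = 1 := by
  obtain ⟨I, hI⟩ : ∃ I : Submodule F F[X], ∀ s, s ∈ I ↔ e * inc X s = 0 :=
    ⟨LinearMap.ker (LinearMap.mulLeft F e ∘ₗ (inc X).toLinearMap), fun s => Iff.rfl⟩
  obtain ⟨K, hK⟩ : ∃ K : Submodule F F[X], ∀ s, s ∈ K ↔ ∃ y, res X (e * y) = s :=
    ⟨LinearMap.range ((res X) ∘ₗ LinearMap.mulLeft F e), fun s => Iff.rfl⟩
  by_contra hcon
  have hne : I ⊔ K ≠ ⊤ := by
    intro h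
    have h1 : (1 : F[X]) ∈ I ⊔ K := by rw [h]; trivial
    obtain ⟨s, hs, k, hk, h2⟩ := Submodule.mem_sup.1 h1
    obtain ⟨y, rfl⟩ := (hK k).1 hk
    exact hcon ⟨s, (hI s).1 hs, y, h2⟩
  have hinv : Inv (Lreg F X) (I ⊔ K) := by
    intro x t ht
    obtain ⟨s, hs, k, hk, rfl⟩ := Submodule.mem_sup.1 ht
    rw [map_add]
    refine Submodule.add_mem_sup ?_ ?_
    · rw [hI] at hs ⊢
      rw [Lreg_apply, map_mul, ← mul_assoc, he.cen, mul_assoc, hs, mul_zero]
    · rw [hK] at hk ⊢
      obtain ⟨y, rfl⟩ := hk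
      refine ⟨inc X (MonoidAlgebra.single x 1) * y, ?_⟩
      rw [Lreg_apply, ← res_inc_mul, ← mul_assoc, he.cen, mul_assoc]
  obtain ⟨U, hU0, hU1, hU2, σ, hσ, hσρ⟩ := exists_quot hinv hne
  refine lemB (σ := σ) he hσ ?_ (lemC (σ := σ) he hσ ?_)
  · intro y
    refine LinearMap.ext fun w => ?_
    obtain ⟨t, rfl⟩ := U.mkQ_surjective w
    rw [act_mkQ hσρ, Lreg_act, LinearMap.zero_apply]
    refine (Submodule.Quotient.mk_eq_zero U).2 (hU0 (Submodule.mem_sup_right ?_))
    rw [hK]
    exact ⟨y * inc X t, by rw [← res_mul_inc, mul_assoc]⟩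
  · intro s hs
    refine LinearMap.ext fun w => ?_
    obtain ⟨t, rfl⟩ := U.mkQ_surjective w
    rw [act_mkQ hσρ, Lreg_act, LinearMap.zero_apply]
    refine (Submodule.Quotient.mk_eq_zero U).2 (hU0 (Submodule.mem_sup_left ?_))
    rw [hI, map_mul, ← mul_assoc, hs, zero_mul]

lemma inter (he : BI B e) {u : F[X]} (h1 : e * inc X u = 0) {y' : F[J]}
    (h2 : u = res X (e * y')) : u = 0 := by
  obtain ⟨s, hs, y, hy⟩ := decomp (X := X) he
  have h3 : u * s = 0 := by
    rw [h2, ← res_mul_inc, he.cen, mul_assoc, hs, mul_zero, map_zero]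
  have h4 : u * res X (e * y) = 0 := by
    rw [← res_inc_mul, ← mul_assoc, ← he.cen, h1, zero_mul, map_zero]
  rw [← mul_one u, ← hy, mul_add, h3, h4, add_zero]

lemma part1' {b : (X → F) → F} (hB : IsBlock B)
    (hcov : ∀ z : J → F, InZ X z → B z = b (fun x : X => z x))
    (hσ : σ.IsIrreducible) (hm : Mem b σ) : Und B σ := by
  classical
  by_contra hno
  obtain ⟨e, he1, he2, he3⟩ := block_idem hB
  have he : BI B (e : F[J]) :=
    { cen := fun y => (Subring.mem_center_iff.1 e.2 y).symm
      idem := congrArg Subtype.val he2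
      one := fun V _ _ _ ρ hρ h => (he3 V ρ hρ).1 h
      zero := fun V _ _ _ ρ hρ h => (he3 V ρ hρ).2 h }
  have hK : ∀ y, σ.asAlgebraHom (res X ((e : F[J]) * y)) = 0 := by
    intro y
    induction y using MonoidAlgebra.induction_linear with
    | zero => rw [mul_zero, map_zero, map_zero]
    | add y z hy hz => rw [mul_add, map_add, map_add, hy, hz, add_zero]
    | single j a =>
      have h1 : MonoidAlgebra.single j a = a • (MonoidAlgebra.single j 1 : F[J]) := by
        rw [MonoidAlgebra.smul_single, smul_eq_mul, mul_one]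
      rw [h1, mul_smul_comm, map_smul, map_smul, lemA he hσ hno, smul_zero]
  obtain ⟨s, hs, y, hy⟩ := decomp (X := X) he
  have hinv : ∀ g, cj X g s = s := by
    intro g
    have h1 : cj X g s + res X ((e : F[J]) * (MonoidAlgebra.single g 1 * y *
        MonoidAlgebra.single g⁻¹ 1)) = 1 := by
      have h2 := congrArg (cj X g) hy
      rw [map_add, map_one, ← res_cj, ← mul_assoc, ← he.cen] at h2
      rw [← h2]
      simp only [mul_assoc]
    rw [← sub_eq_zero]
    refine inter he (y' := y - (MonoidAlgebra.single g 1 * y * MonoidAlgebra.single g⁻¹ 1)) ?_ ?_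
    · rw [map_sub, mul_sub, hs, sub_zero, inc_cj, ← mul_assoc, ← mul_assoc, he.cen,
        mul_assoc _ (e : F[J]), hs, mul_zero, zero_mul]
    · rw [mul_sub, map_sub]
      have h3 := h1.trans hy.symm
      rw [sub_eq_sub_iff_add_eq_add, h3]
      exact add_comm _ _
  have hz := inz_of_inv hinv
  have hcen : ∀ y, inc X s * y = y * inc X s := central_of_class hz.conj
  have h0 : B (fun g => (inc X s).coeff g) = 0 := by
    obtain ⟨z, hzz⟩ : ∃ z : Subring.center F[J], (z : F[J]) = inc X s :=
      ⟨⟨inc X s, Subring.mem_center_iff.2 fun y => (hcen y).symm⟩, rfl⟩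
    have h1 : e * z = 0 := Subtype.ext (by
      show (e : F[J]) * (z : F[J]) = 0
      rw [hzz, hs])
    have h2 := congrArg (hom hB) h1
    rw [map_mul, he1, one_mul, map_zero, hom_apply, hzz] at h2
    exact h2
  have hb0 : b (fun x => s.coeff x) = 0 := by
    rw [hcov _ hz] at h0
    rw [← h0]
    congr 1
    funext x
    exact (inc_coeff X s x).symm
  have hcl : IsClassFun fun x : X => s.coeff x := by
    intro g x
    have h1 := hz.conj g x
    beta_reduce at h1
    show s.coeff (g * x * g⁻¹) = s.coeff x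
    rw [← inc_coeff X s x, ← inc_coeff X s (g * x * g⁻¹)]
    exact h1
  have h1 : σ.asAlgebraHom s = 1 := by
    have h2 := congrArg σ.asAlgebraHom hy
    rw [map_add, hK, add_zero, map_one] at h2
    exact h2
  have hn := ((irr_iff σ).1 hσ).1
  obtain ⟨w, hw⟩ := exists_ne (0 : W)
  have h2 := scal hσ hm (central_of_class hcl) w
  rw [h1, hb0, zero_smul] at h2
  exact hw h2

end main

theorem main : S_COVB := by
  intro F _ _ J _ _ X _ B b hB hb hcov
  constructor
  · rintro θ ⟨W, i1, i2, i3, σ, hσ, rfl⟩ hθ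
    exact part1' hB hcov hσ hθ
  · rintro φ ⟨V, i1, i2, i3, ρ, hρ, rfl⟩ hφ
    exact part2' hb hcov hρ hφ

end Pool.Agent.N85.KG.Covb
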