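import Pool.Agent.N85.KG.Stm
import Pool.Agent.N85.AW.Idl
import Pool.Agent.Y930.NV.Cen

/-!
# Sum over the twists of a block, ordinary characters (owner helper691)

After `Pool/Agent/N85/AW/Idl.lean` (helper433).
-/

set_option autoImplicit false

open scoped Classical BigOperators

noncomputable section

namespace Pool.Agent.N85.KG.Idk

open Pool.Agent.Y63.NV Pool.Agent.N85.WM Pool.Agent.N85.AW Pool.Agent.N85.AW.Idl
open Pool.Agent.Y63.AWC (IsIrreducibleCharacter)
open Pool.Agent.Y63.NV.B48B (CF rs)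

variable {F : Type} [Field F] {H : Type} [Group H]

theorem kBl_eq (red : integralClosure ℤ ℂ →+* F) (B : (H → F) → F) :
    Nat.card {x : {χ : H → ℂ // IsIrreducibleCharacter χ} // BEq (centralValue red x.1) B} =
      kBl red B :=
  Nat.card_congr (Equiv.subtypeSubtypeEquivSubtypeInter
    (fun χ : H → ℂ => IsIrreducibleCharacter χ) (fun χ : H → ℂ => BEq (centralValue red χ) B))

theorem kN_eq (red : integralClosure ℤ ℂ →+* F) (z : H → F) :
    Nat.card {x : {χ : H → ℂ // IsIrreducibleCharacter χ} // centralValue red x.1 z = 1} =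
      kN red z 1 :=
  Nat.card_congr (Equiv.subtypeSubtypeEquivSubtypeInter _
    (fun χ : H → ℂ => centralValue red χ z = 1))

/-- **IDK** -/
theorem main (h1 : S_TWK) (h2 : S_RSEP) : S_IDK := by
  intro p _ F _ _ _ red H _ _ B hB
  obtain ⟨z, hz, hsupp, hBz, hl⟩ := h2 p F H B hB
  have hfin := cl_fin z
  have hC : ∀ β, β ∈ hfin.toFinset ↔ ∃ B' : (H → F) → F, IsBlock B' ∧ B' z = 1 ∧ rs B' = β :=
    fun β => hfin.mem_toFinset
  have hn : nB z 1 = hfin.toFinset.card := by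
    rw [← Nat.card_eq_card_finite_toFinset]
    refine Nat.card_congr (Equiv.subtypeEquivRight fun β => ?_)
    exact ⟨fun ⟨B', a, b, c⟩ => ⟨B', a, c, b⟩, fun ⟨B', a, b, c⟩ => ⟨B', a, c, b⟩⟩
  have : Fintype H := Fintype.ofFinite H
  have : Finite {χ : H → ℂ // IsIrreducibleCharacter χ} :=
    (Pool.Agent.Helper884.IC.irr_finite (G := H)).to_subtype
  refine ⟨z, hz, hsupp, ?_, ?_, ?_⟩
  · rw [hn]
    exact Finset.card_pos.2 ⟨rs B, (hC _).2 ⟨B, hB, hBz, rfl⟩⟩
  · rw [hn, ← kN_eq]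
    refine count (fun x : {χ : H → ℂ // IsIrreducibleCharacter χ} => centralValue red x.1)
      (fun x => Pool.Agent.Y930.NV.cvh F red H x.1 x.2) hz.cl _ hC _ fun B' hB' hB'z => ?_
    obtain ⟨l, hl⟩ := hl B' hB' hB'z
    rw [card_congr' _ hl, kBl_eq]
    exact (h1 p F red H l B hB).1
  · intro χ d hχ hχz hd
    obtain ⟨l, hl⟩ := hl (centralValue red χ) (Pool.Agent.Y930.NV.cvh F red H χ hχ) hχz
    exact ((h1 p F red H l B hB).2 d).1 ⟨χ, ⟨hχ, hl⟩, hd⟩

end Pool.Agent.N85.KG.Idk
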